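import Pool.Agent.H56.JS.Main

set_option autoImplicit false
open MeasureTheory
open scoped ENNReal

namespace Pool.Agent.H85.JSU

variable {Ω Ω' : Type*} [MeasurableSpace Ω] [MeasurableSpace Ω'] {m : Measure Ω} {P : Measure Ω'}
  [IsFiniteMeasure P]

lemma two_le_four : (2 : ℝ≥0∞) ≤ 4 := by norm_num

omit [IsFiniteMeasure P] in
lemma memLp_pull4 {j : Ω' → Ω} (hj : Measurable j) (hm : P.map j ≤ m) (f : Lp ℝ 4 m) :
    MemLp (f ∘ j) 4 P :=
  ((Lp.memLp f).mono_measure hm).comp_of_map hj.aemeasurable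

lemma memLp_pull2 {j : Ω' → Ω} (hj : Measurable j) (hm : P.map j ≤ m) (f : Lp ℝ 4 m) :
    MemLp (f ∘ j) 2 P :=
  (memLp_pull4 hj hm f).mono_exponent two_le_four

/-- the constant -/
noncomputable def cst (P : Measure Ω') : ℝ := (P Set.univ ^ (1 / 2 - 1 / 4 : ℝ)).toReal

/-- restriction (pull back along `j`) from `L^4(m)` to `L^2(P)` as a linear map -/
noncomputable def pullLin {j : Ω' → Ω} (hj : Measurable j) (hm : P.map j ≤ m) :
    Lp ℝ 4 m →ₗ[ℝ] Lp ℝ 2 P where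
  toFun f := (memLp_pull2 hj hm f).toLp
  map_add' f g := by
    rw [← MemLp.toLp_add]
    apply MemLp.toLp_congr
    have h1 : (⇑(f + g)) =ᵐ[P.map j] f + g := (Lp.coeFn_add f g).filter_mono
      (Measure.absolutelyContinuous_of_le hm).ae_le
    exact ae_eq_comp hj.aemeasurable h1
  map_smul' c f := by
    rw [RingHom.id_apply, ← MemLp.toLp_const_smul]
    apply MemLp.toLp_congr
    have h1 : (⇑(c • f)) =ᵐ[P.map j] c • f := (Lp.coeFn_smul c f).filter_mono
      (Measure.absolutelyContinuous_of_le hm).ae_le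
    exact ae_eq_comp hj.aemeasurable h1

lemma norm_pullLin_le {j : Ω' → Ω} (hj : Measurable j) (hm : P.map j ≤ m) (f : Lp ℝ 4 m) :
    ‖pullLin hj hm f‖ ≤ cst P * ‖f‖ := by
  show ‖(memLp_pull2 hj hm f).toLp‖ ≤ _
  rw [Lp.norm_toLp, Lp.norm_def, cst, mul_comm, ← ENNReal.toReal_mul]
  have h1 : eLpNorm (f ∘ j) 2 P ≤ eLpNorm (f ∘ j) 4 P * P Set.univ ^ (1 / 2 - 1 / 4 : ℝ) := by
    have := eLpNorm_le_eLpNorm_mul_rpow_measure_univ (μ := P) two_le_four
      (memLp_pull4 hj hm f).1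
    simpa using this
  have h2 : eLpNorm (f ∘ j) 4 P ≤ eLpNorm f 4 m := by
    rw [← eLpNorm_map_measure ((Lp.memLp f).mono_measure hm).1 hj.aemeasurable]
    exact eLpNorm_mono_measure _ hm
  apply ENNReal.toReal_mono
  · apply ENNReal.mul_ne_top (Lp.memLp f).2.ne
    apply ENNReal.rpow_ne_top_of_nonneg (by norm_num) (measure_ne_top _ _)
  · exact h1.trans (mul_le_mul_left h2 _)

/-- restriction (pull back along `j`) from `L^4(m)` to `L^2(P)` -/
noncomputable def pull {j : Ω' → Ω} (hj : Measurable j) (hm : P.map j ≤ m) :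
    Lp ℝ 4 m →L[ℝ] Lp ℝ 2 P :=
  (pullLin hj hm).mkContinuous (cst P) (norm_pullLin_le hj hm)

lemma pull_apply_ae {j : Ω' → Ω} (hj : Measurable j) (hm : P.map j ≤ m) (f : Lp ℝ 4 m) :
    pull hj hm f =ᵐ[P] f ∘ j :=
  MemLp.coeFn_toLp (memLp_pull2 hj hm f)

lemma norm_pull_le {j : Ω' → Ω} (hj : Measurable j) (hm : P.map j ≤ m) (f : Lp ℝ 4 m) :
    ‖pull hj hm f‖ ≤ cst P * ‖f‖ := norm_pullLin_le hj hm f

lemma cst_prob (P : Measure Ω') [IsProbabilityMeasure P] : cst P = 1 := by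
  simp [cst]

end Pool.Agent.H85.JSU
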